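import Pool.Agent.Helper98.TA.Basic
import Pool.Agent.Helper73.TWR.Tool

/-! Row WTC of the sheet TA (MP_7a8f48). -/

set_option linter.unusedSectionVars false

open MeasureTheory Filter Topology Finset
open scoped ComplexConjugate

namespace Pool.Agent.Helper95.TA

open Pool.Agent.Helper98.TW
open Pool.Agent.Helper40.TWM (St)
open Pool.Agent.Helper98.GY (JY)
open Pool.Agent.Helper98.TA
open Pool.Agent.Helper96.TWR (AM_comp)
open Pool.Agent.Helper73.TWR (ce_tower ce_sq_le ce_memLp bf_int)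

section
variable {Ω : Type} [m0 : MeasurableSpace Ω] {μ : Measure Ω} [IsProbabilityMeasure μ]

/-- the correlations are monotone in the sigma algebra -/
theorem al_mono {C C' : SA Ω} (hC : Lm C) (hC' : Lm C') (hq : LQ μ C C') {R : Ω → Ω}
    (hR : Measurable R) {F : Ω → ℂ} (hF : BF F) (H : ℕ) :
    al μ C R (fun _ => (1 : ℂ →L[ℂ] ℂ)) F H ≤ al μ C' R (fun _ => (1 : ℂ →L[ℂ] ℂ)) F H := by
  obtain ⟨hFm, B, hB⟩ := hF
  unfold al
  refine div_le_div_of_nonneg_right ?_ (by positivity)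
  refine sum_le_sum fun h _ => ?_
  simp only [Pool.Agent.Helper59.TWR.Wi_one]
  set f : Ω → ℂ := fun x => (inner ℂ (F x) (F (R^[h] x)) : ℂ) with hf
  have hm : Measurable f := hFm.inner (hFm.comp (hR.iterate h))
  have hbd : ∀ x, ‖f x‖ ≤ B * B := fun x => (norm_inner_le_norm _ _).trans
    (mul_le_mul (hB _) (hB _) (norm_nonneg _) ((norm_nonneg _).trans (hB x)))
  have hfi : Integrable f μ :=
    Integrable.of_bound hm.aestronglyMeasurable (B * B) (Eventually.of_forall hbd)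
  have hfL : MemLp f 2 μ := MemLp.of_bound hm.aestronglyMeasurable (B * B)
    (Eventually.of_forall hbd)
  have h1 := ce_tower hC hC' hq hfi
  have h2 : ∫ x, ‖(μ[f|C]) x‖ ^ 2 ∂μ = ∫ x, ‖(μ[μ[f|C']|C]) x‖ ^ 2 ∂μ := by
    refine integral_congr_ae ?_
    filter_upwards [h1] with x hx
    rw [hx]
  rw [h2]
  exact ce_sq_le (ce_memLp hfL)

theorem A0_mono {C C' : SA Ω} (hC : Lm C) (hC' : Lm C') (hq : LQ μ C C') {R : Ω → Ω}
    (hR : Measurable R) {F : Ω → ℂ} (hF : BF F) (h : A0 μ C' R F) : A0 μ C R F := by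
  refine squeeze_zero (fun H => ?_) (fun H => al_mono hC hC' hq hR hF H) h
  unfold al
  positivity

end

/-- WTC -/
theorem st_WTC (hWMF : ST_WMF) : ST_WTC := by
  intro Ω m0 μ hμ S S' s E f p q κ hSt hs hCt hf hp hq hκ hA
  have hP : IsProbabilityMeasure κ := hκ.prob
  have hS : Sys μ S S' := Pool.Agent.Helper98.TA.St.s1 hSt
  have hsys : Sys κ (Prod.map S^[p] S^[q]) (Prod.map S'^[p] S'^[q]) := sys_jy hS hκ
  obtain ⟨hfm, B, hB⟩ := hf
  have hf1 : BF (fun z : Ω × Ω => f z.1) := ⟨hfm.comp measurable_fst, B, fun z => hB z.1⟩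
  induction hCt with
  | refl => exact hA
  | step E τ M hc hτ hi hM hτM ih =>
    have hE : IA μ E S S' := hc.ia hS hs
    set C : SA (Ω × Ω) := jo (J1 s) (J2 E) with hCdef
    have hCia : IA κ C (Prod.map S^[p] S^[q]) (Prod.map S'^[p] S'^[q]) :=
      ia_jo hsys (ia_J1 hS hκ hs) (ia_J2 hS hκ hE)
    have hτ2 : UF κ (fun z => τ z.2) := uf_J2 hκ hτ
    have hinc : Inc κ C (Prod.map S^[p] S^[q]) (fun z => τ z.2) :=
      inc_mono lq_jo_right (inc_J2 Pool.Agent.Helper96.TWR.st_PFC hS hκ hE.1 hτ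
        (inc_iter hE hS hτ hi q))
    have hτM2 : AM κ C (fun z => (fun z : Ω × Ω => τ z.2) z ^ M) :=
      am_jo_right (AM_comp (jy_mp2 hκ) hτM)
    have h1 : A0 κ (ad κ C (fun z => τ z.2)) (Prod.map S^[p] S^[q]) (fun z => f z.1) :=
      hWMF (Ω × Ω) κ _ _ C (fun z => f z.1) (fun z => τ z.2) M hsys hκ.erg hCia hf1 hτ2 hinc hM
        hτM2 ih
    have hadE : IA μ (ad μ E τ) S S' := ia_ad hS hE hτ hi
    refine A0_mono (lm_jo (lm_J1 hs.1) (lm_J2 hadE.1)) (ia_ad hsys hCia hτ2 hinc).1 ?_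
      hsys.mp.measurable hf1 h1
    refine lq_jo (lq_trans lq_jo_left lq_ad) ?_
    have e1 : J2 (ad μ E τ) = jo (J2 E) (sg {ψ | ∃ φ ∈ Pw μ E τ, ψ = fun z : Ω × Ω => φ z.2}) :=
      cm_sg Prod.snd E (Pw μ E τ)
    rw [e1]
    refine lq_jo (lq_trans lq_jo_right lq_ad) (lq_sg ?_)
    rintro ψ ⟨φ, ⟨hφ, n, hn⟩, rfl⟩
    refine am_ad_mem ⟨uf_J2 hκ hφ, n, ?_⟩
    exact am_jo_right (AM_comp (jy_mp2 hκ) hn)

end Pool.Agent.Helper95.TA
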