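import Pool.Agent.Helper95.TA.TSQ
import Pool.Agent.Helper98.TA.Stmts

/-! Row TVC of the sheet TA (MP_7a8f48). -/

set_option linter.unusedSectionVars false

open MeasureTheory Filter Topology Finset
open scoped ComplexConjugate

namespace Pool.Agent.Helper95.TA

open Pool.Agent.Helper98.TW
open Pool.Agent.Helper40.TWM (St)
open Pool.Agent.Helper98.TA (A0 TV ST_TVC)

section
variable {Ω : Type} [m0 : MeasurableSpace Ω] {μ : Measure Ω} [IsProbabilityMeasure μ]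

/-- iterates of the composition -/
theorem wi_one (R : Ω → Ω) (h : ℕ) (F : Ω → ℂ) (x : Ω) :
    Wi (fun _ => (1 : ℂ →L[ℂ] ℂ)) R h F x = F (R^[h] x) := by
  unfold Wi
  induction h generalizing F x with
  | zero => rfl
  | succ h ih =>
    rw [Function.iterate_succ_apply', one_apply_eq_self, ih]
    rw [Function.iterate_succ_apply]

theorem al_bo (R : Ω → Ω) (F : Ω → ℂ) (H : ℕ) :
    al μ bo R (fun _ => 1) F H =
      (∑ h ∈ range H, ‖∫ x, F (R^[h] x) * conj (F x) ∂μ‖ ^ 2) / H := by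
  unfold al
  congr 1
  refine sum_congr rfl fun h _ => ?_
  have e1 : (fun x => (inner ℂ (F x) (Wi (fun _ => (1 : ℂ →L[ℂ] ℂ)) R h F x) : ℂ)) =
      fun x => F (R^[h] x) * conj (F x) := by
    funext x
    rw [wi_one]
    simp
  rw [e1]
  have e2 : μ[fun x => F (R^[h] x) * conj (F x)|(bo : SA Ω)] =
      fun _ => ∫ x, F (R^[h] x) * conj (F x) ∂μ := condExp_bot _
  rw [e2]
  simp

end

/-- TVC -/
theorem st_TVC (hcec : ST_CEC) : ST_TVC := by
  intro Ω _ μ _ S S' G hSt hG hG0 hA hTV ε hε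
  obtain ⟨hGm, B', hB'⟩ := hG
  set B : ℝ := max B' 0 with hBd
  have hB0 : 0 ≤ B := le_max_right _ _
  have hB : ∀ᵐ x ∂μ, ‖G x‖ ≤ B := Eventually.of_forall fun x => (hB' x).trans (le_max_left _ _)
  have hS : Sys μ S S' := by
    have := hSt.sys 1
    simpa using this
  have hGs : AEStronglyMeasurable G μ := hGm.aestronglyMeasurable
  set K : ℝ := B ^ 2 + 1 with hK
  have hK0 : 0 < K := by positivity
  set δ : ℝ := ε ^ 2 / (2 * K) with hδ
  have hδ0 : 0 < δ := by positivity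
  -- choice of `H`
  have hA' : Tendsto (fun H : ℕ =>
      (∑ h ∈ range H, ‖∫ x, G (S^[h] x) * conj (G x) ∂μ‖ ^ 2) / (H : ℝ)) atTop (𝓝 0) := by
    refine hA.congr fun H => al_bo S G H
  have hev : ∀ᶠ H : ℕ in atTop,
      (∑ h ∈ range H, ‖∫ x, G (S^[h] x) * conj (G x) ∂μ‖ ^ 2) / (H : ℝ) < (δ / 2) ^ 2 :=
    hA'.eventually (gt_mem_nhds (by positivity))
  obtain ⟨H, hH, hH1⟩ := (hev.and (eventually_ge_atTop 1)).exists
  have hHr : (0 : ℝ) < H := by exact_mod_cast hH1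
  have hmean : 2 * ((∑ j ∈ range H, ‖∫ y, G (S^[j] y) * conj (G y) ∂μ‖) / (H : ℝ)) ≤ δ := by
    have h1 : (∑ j ∈ range H, ‖∫ y, G (S^[j] y) * conj (G y) ∂μ‖) ^ 2 ≤
        (H : ℝ) * ∑ j ∈ range H, ‖∫ y, G (S^[j] y) * conj (G y) ∂μ‖ ^ 2 := by
      have := sq_sum_le_card_mul_sum_sq (s := range H)
        (f := fun j => ‖∫ y, G (S^[j] y) * conj (G y) ∂μ‖)
      simpa using this
    have h2 : ((∑ j ∈ range H, ‖∫ y, G (S^[j] y) * conj (G y) ∂μ‖) / (H : ℝ)) ^ 2 ≤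
        (δ / 2) ^ 2 := by
      refine le_trans ?_ hH.le
      rw [div_pow, div_le_div_iff₀ (by positivity) hHr]
      calc _ ≤ ((H : ℝ) * ∑ j ∈ range H, ‖∫ y, G (S^[j] y) * conj (G y) ∂μ‖ ^ 2) * H :=
            mul_le_mul_of_nonneg_right h1 hHr.le
        _ = _ := by ring
    have h3 := (abs_le_of_sq_le_sq' h2 (by positivity)).2
    linarith
  -- choice of `q₀`
  have hη0 : 0 < δ ^ 2 := by positivity
  choose Q hQ using fun mn : ℕ × ℕ => hTV mn.1 mn.2 (δ ^ 2) hη0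
  refine ⟨(range H ×ˢ range H).sup Q, fun q hq hqp D hD => ?_⟩
  have hIA : IA μ D S S' := hD.1
  have hmain := tsq hcec hS hIA hGs hB0 hB hH1 hδ0.le (fun h hh h' hh' => by
    refine hQ (h, h') q (le_trans ?_ hq) hqp D hD
    exact Finset.le_sup (f := Q) (mem_product.2 ⟨mem_range.2 hh, mem_range.2 hh'⟩))
  have hd := dmean hS hGs hH1
  rw [hG0]
  simp only [sub_zero]
  set a : ℝ := ∫ x, ‖(μ[G|D]) x‖ ^ 2 ∂μ with ha
  have h1 : a ^ 2 ≤ ε ^ 2 := by
    refine hmain.trans ?_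
    calc B ^ 2 * ((∑ h ∈ range H, ∑ h' ∈ range H,
          ‖∫ y, G (S^[h] y) * conj (G (S^[h'] y)) ∂μ‖) / (H : ℝ) ^ 2 + δ)
        ≤ B ^ 2 * (δ + δ) :=
          mul_le_mul_of_nonneg_left (by linarith [hd.trans hmean]) (by positivity)
      _ ≤ K * (δ + δ) := mul_le_mul_of_nonneg_right (by rw [hK]; linarith) (by positivity)
      _ = ε ^ 2 := by rw [hδ]; field_simp; ring
  exact (abs_le_of_sq_le_sq' h1 hε.le).2

end Pool.Agent.Helper95.TA
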