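import Pool.Agent.Helper13.TWR.LZ

/-!
MP_7a8f48, sheet TA: the mean argument for conditional expectations (step TS).
-/

set_option linter.unusedSectionVars false

open MeasureTheory Filter Topology Finset
open scoped ComplexConjugate

namespace Pool.Agent.Helper95.TA

open Pool.Agent.Helper98.TW
open Pool.Agent.Helper13.TWR (pull13 uf_int am_condExp)

section
variable {Ω : Type} [m0 : MeasurableSpace Ω] {μ : Measure Ω} [IsProbabilityMeasure μ]
  {S S' : Ω → Ω} {D : SA Ω} {G : Ω → ℂ} {B : ℝ}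

theorem bd_condExp (hD : Lm D) (hG : AEStronglyMeasurable G μ) (hB : ∀ᵐ x ∂μ, ‖G x‖ ≤ B) :
    ∀ᵐ x ∂μ, ‖(μ[G|D]) x‖ ≤ B := by
  have h1 : (fun x => ‖(μ[G|D]) x‖) ≤ᵐ[μ] μ[(fun x => ‖G x‖)|D] := norm_condExp_le G
  have hi : Integrable (fun x => ‖G x‖) μ := by
    refine Integrable.mono' (integrable_const B) hG.norm ?_
    filter_upwards [hB] with x hx
    simpa using hx
  have h2 : μ[(fun x => ‖G x‖)|D] ≤ᵐ[μ] μ[(fun _ => B)|D] :=
    condExp_mono hi (integrable_const B) hB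
  have h3 : μ[(fun _ => B)|D] = fun _ => B := condExp_const hD B
  filter_upwards [h1, h2] with x e1 e2
  rw [h3] at e2
  exact e1.trans e2

theorem int_of_bd {f : Ω → ℂ} (hf : AEStronglyMeasurable f μ) {C : ℝ} (h : ∀ᵐ x ∂μ, ‖f x‖ ≤ C) :
    Integrable f μ := Integrable.mono' (integrable_const C) hf h

theorem int_of_bdr {f : Ω → ℝ} (hf : AEStronglyMeasurable f μ) {C : ℝ} (h : ∀ᵐ x ∂μ, ‖f x‖ ≤ C) :
    Integrable f μ := Integrable.mono' (integrable_const C) hf h

/-- Cauchy-Schwarz with a constant -/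
theorem sq_int_le {f : Ω → ℝ} (hf : Integrable f μ) (hf2 : Integrable (fun x => f x ^ 2) μ) :
    (∫ x, f x ∂μ) ^ 2 ≤ ∫ x, f x ^ 2 ∂μ := by
  have h : 0 ≤ ∫ x, (f x - ∫ y, f y ∂μ) ^ 2 ∂μ := integral_nonneg fun x => sq_nonneg _
  have e : ∫ x, (f x - ∫ y, f y ∂μ) ^ 2 ∂μ = ∫ x, f x ^ 2 ∂μ - (∫ y, f y ∂μ) ^ 2 := by
    have e1 : ∀ x, (f x - ∫ y, f y ∂μ) ^ 2 =
        f x ^ 2 - (2 * (∫ y, f y ∂μ)) * f x + (∫ y, f y ∂μ) ^ 2 := fun x => by ring
    simp_rw [e1]
    have hA : Integrable (fun x => f x ^ 2 - (2 * (∫ y, f y ∂μ)) * f x) μ :=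
      hf2.sub (hf.const_mul _)
    rw [integral_add hA (integrable_const _),
      integral_sub hf2 (hf.const_mul _), integral_const_mul, integral_const]
    simp
    ring
  linarith [e ▸ h]

theorem ae_iter (hS : Sys μ S S') (n : ℕ) {P : Ω → Prop} (h : ∀ᵐ x ∂μ, P x) :
    ∀ᵐ x ∂μ, P (S^[n] x) := ae_comp (hS.iterate n).mp h

theorem asm_iter (hS : Sys μ S S') (n : ℕ) {f : Ω → ℂ} (h : AEStronglyMeasurable f μ) :
    AEStronglyMeasurable (fun x => f (S^[n] x)) μ :=
  h.comp_measurePreserving (hS.iterate n).mp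

/-- the main inequality -/
theorem tsq (hcec : ST_CEC) (hS : Sys μ S S') (hD : IA μ D S S')
    (hG : AEStronglyMeasurable G μ) (hB0 : 0 ≤ B) (hB : ∀ᵐ x ∂μ, ‖G x‖ ≤ B) {H : ℕ} (hH : 1 ≤ H)
    {η : ℝ} (hη : 0 ≤ η)
    (h : ∀ h < H, ∀ h' < H, ∫ x, ‖(μ[fun x => G (S^[h] x) * conj (G (S^[h'] x))|D]) x -
      ∫ y, G (S^[h] y) * conj (G (S^[h'] y)) ∂μ‖ ^ 2 ∂μ ≤ η ^ 2) :
    (∫ x, ‖(μ[G|D]) x‖ ^ 2 ∂μ) ^ 2 ≤ B ^ 2 * ((∑ h ∈ range H, ∑ h' ∈ range H,
      ‖∫ y, G (S^[h] y) * conj (G (S^[h'] y)) ∂μ‖) / (H : ℝ) ^ 2 + η) := by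
  set g : Ω → ℂ := μ[G|D] with hg
  have hDm : Lm D := hD.1
  have hgm : AEStronglyMeasurable g μ := integrable_condExp.aestronglyMeasurable
  have hgB : ∀ᵐ x ∂μ, ‖g x‖ ≤ B := bd_condExp hDm hG hB
  have hGi : Integrable G μ := int_of_bd hG hB
  -- the conditional expectations of the shifted functions
  have hgh : ∀ n : ℕ, μ[fun x => G (S^[n] x)|D] =ᵐ[μ] fun x => g (S^[n] x) := fun n =>
    hcec Ω μ S^[n] S'^[n] D G (hS.iterate n) (hD.iterate n) hGi
  have hgD : ∀ n : ℕ, AM μ D (fun x => g (S^[n] x)) := fun n =>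
    ((hD.iterate n).2 g am_condExp).1
  have hGn : ∀ n : ℕ, AEStronglyMeasurable (fun x => G (S^[n] x)) μ := fun n => asm_iter hS n hG
  have hgn : ∀ n : ℕ, AEStronglyMeasurable (fun x => g (S^[n] x)) μ := fun n => asm_iter hS n hgm
  have hGnB : ∀ n : ℕ, ∀ᵐ x ∂μ, ‖G (S^[n] x)‖ ≤ B := fun n => ae_iter hS n hB
  have hgnB : ∀ n : ℕ, ∀ᵐ x ∂μ, ‖g (S^[n] x)‖ ≤ B := fun n => ae_iter hS n hgB
  set X : ℕ → Ω → ℂ := fun n x => G (S^[n] x) * conj (g (S^[n] x)) with hX
  have hXm : ∀ n, AEStronglyMeasurable (X n) μ := fun n =>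
    (hGn n).mul (Complex.continuous_conj.comp_aestronglyMeasurable (hgn n))
  have hXB : ∀ n, ∀ᵐ x ∂μ, ‖X n x‖ ≤ B * B := fun n => by
    filter_upwards [hGnB n, hgnB n] with x e1 e2
    rw [hX]
    simp only [norm_mul, RCLike.norm_conj]
    exact mul_le_mul e1 e2 (norm_nonneg _) hB0
  -- the integral of `G conj g`
  have hI0 : ∫ x, X 0 x ∂μ = ((∫ x, ‖g x‖ ^ 2 ∂μ : ℝ) : ℂ) := by
    have h1 : μ[fun x => conj (g x) * G x|D] =ᵐ[μ] fun x => conj (g x) * g x := by
      refine pull13 (am_conj am_condExp) ?_ hGi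
      refine int_of_bd ((Complex.continuous_conj.comp_aestronglyMeasurable hgm).mul hG) (C := B * B) ?_
      filter_upwards [hB, hgB] with x e1 e2
      simp only [norm_mul, RCLike.norm_conj]
      exact mul_le_mul e2 e1 (norm_nonneg _) hB0
    have h2 : ∫ x, conj (g x) * G x ∂μ = ∫ x, conj (g x) * g x ∂μ := by
      rw [← integral_condExp hDm, integral_congr_ae h1]
    have h3 : ∫ x, X 0 x ∂μ = ∫ x, conj (g x) * G x ∂μ := by
      refine integral_congr_ae (Eventually.of_forall fun x => ?_)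
      simp only [hX, Function.iterate_zero, id_eq]
      ring
    rw [h3, h2, ← integral_complex_ofReal]
    refine integral_congr_ae (Eventually.of_forall fun x => ?_)
    simp only
    rw [mul_comm, Complex.mul_conj, Complex.normSq_eq_norm_sq]
  have hIn : ∀ n, ∫ x, X n x ∂μ = ((∫ x, ‖g x‖ ^ 2 ∂μ : ℝ) : ℂ) := by
    intro n
    rw [← hI0]
    have h1 := (hS.iterate n).mp.map_eq
    have h2 : AEStronglyMeasurable (X 0) (μ.map S^[n]) := by rw [h1]; exact hXm 0
    have h3 := integral_map (hS.iterate n).mp.aemeasurable h2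
    rw [h1] at h3
    rw [h3]
    rfl
  set a : ℝ := ∫ x, ‖g x‖ ^ 2 ∂μ with ha
  have ha0 : 0 ≤ a := integral_nonneg fun x => sq_nonneg _
  have hHr : (0 : ℝ) < H := by exact_mod_cast hH
  have hHc : (H : ℂ) ≠ 0 := by exact_mod_cast hHr.ne'
  set Z : Ω → ℂ := fun x => (∑ n ∈ range H, X n x) / (H : ℂ) with hZ
  have hZm : AEStronglyMeasurable Z μ := by
    have : AEStronglyMeasurable (fun x => ∑ n ∈ range H, X n x) μ :=
      Finset.aestronglyMeasurable_fun_sum _ fun n _ => hXm n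
    have h2 : AEStronglyMeasurable (fun x => (∑ n ∈ range H, X n x) * ((H : ℂ))⁻¹) μ :=
      this.mul aestronglyMeasurable_const
    simpa only [hZ, div_eq_mul_inv] using h2
  have hXi : ∀ n, Integrable (X n) μ := fun n => int_of_bd (hXm n) (hXB n)
  have hZI : ∫ x, Z x ∂μ = (a : ℂ) := by
    rw [hZ]
    simp only [div_eq_mul_inv]
    rw [integral_mul_const, integral_finsetSum _ fun n _ => hXi n]
    simp_rw [hIn]
    rw [sum_const, card_range, nsmul_eq_mul]
    field_simp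
  have hZB : ∀ᵐ x ∂μ, ‖Z x‖ ≤ B * B := by
    filter_upwards [ae_all_iff.2 hXB] with x hx
    rw [hZ]
    simp only [norm_div, Complex.norm_natCast]
    rw [div_le_iff₀ hHr]
    refine (norm_sum_le _ _).trans ((sum_le_sum fun n _ => hx n).trans (le_of_eq ?_))
    rw [sum_const, card_range, nsmul_eq_mul]
    ring
  have hstep1 : a ^ 2 ≤ ∫ x, ‖Z x‖ ^ 2 ∂μ := by
    have h1 : a ≤ ∫ x, ‖Z x‖ ∂μ := by
      have h2 : ‖∫ x, Z x ∂μ‖ = a := by
        rw [hZI, Complex.norm_real, Real.norm_eq_abs, abs_of_nonneg ha0]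
      rw [← h2]
      exact norm_integral_le_integral_norm _
    have h3 : (∫ x, ‖Z x‖ ∂μ) ^ 2 ≤ ∫ x, ‖Z x‖ ^ 2 ∂μ := by
      refine sq_int_le (int_of_bd hZm hZB).norm ?_
      refine int_of_bdr (C := (B * B) ^ 2) (hZm.norm.pow 2) ?_
      filter_upwards [hZB] with x hx
      rw [Real.norm_eq_abs, abs_of_nonneg (by positivity)]
      exact pow_le_pow_left₀ (norm_nonneg _) hx 2
    exact (pow_le_pow_left₀ ha0 h1 2).trans h3
  -- expand the square
  have hexp : ((∫ x, ‖Z x‖ ^ 2 ∂μ : ℝ) : ℂ) =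
      (∑ n ∈ range H, ∑ n' ∈ range H, ∫ x, X n x * conj (X n' x) ∂μ) / (H : ℂ) ^ 2 := by
    rw [← integral_complex_ofReal]
    have h1 : ∀ x, ((‖Z x‖ ^ 2 : ℝ) : ℂ) =
        (∑ n ∈ range H, ∑ n' ∈ range H, X n x * conj (X n' x)) * ((H : ℂ) ^ 2)⁻¹ := by
      intro x
      rw [Complex.ofReal_pow, ← Complex.mul_conj', hZ]
      simp only [map_div₀, map_sum, Complex.conj_natCast]
      rw [div_mul_div_comm, Finset.sum_mul_sum, div_eq_mul_inv, sq]
    rw [integral_congr_ae (Eventually.of_forall h1), integral_mul_const, div_eq_mul_inv]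
    congr 1
    rw [integral_finsetSum]
    · refine sum_congr rfl fun n _ => ?_
      rw [integral_finsetSum]
      intro n' _
      refine int_of_bd (C := (B * B) * (B * B))
        ((hXm n).mul (Complex.continuous_conj.comp_aestronglyMeasurable (hXm n'))) ?_
      filter_upwards [hXB n, hXB n'] with x e1 e2
      rw [norm_mul, RCLike.norm_conj]
      exact mul_le_mul e1 e2 (norm_nonneg _) (by positivity)
    · intro n _
      refine integrable_finsetSum _ fun n' _ => ?_
      refine int_of_bd (C := (B * B) * (B * B))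
        ((hXm n).mul (Complex.continuous_conj.comp_aestronglyMeasurable (hXm n'))) ?_
      filter_upwards [hXB n, hXB n'] with x e1 e2
      rw [norm_mul, RCLike.norm_conj]
      exact mul_le_mul e1 e2 (norm_nonneg _) (by positivity)
  -- one term
  have hterm : ∀ n < H, ∀ n' < H, ‖∫ x, X n x * conj (X n' x) ∂μ‖ ≤
      B ^ 2 * (‖∫ y, G (S^[n] y) * conj (G (S^[n'] y)) ∂μ‖ + η) := by
    intro n hn n' hn'
    set P : Ω → ℂ := fun x => G (S^[n] x) * conj (G (S^[n'] x)) with hP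
    set w : Ω → ℂ := fun x => conj (g (S^[n] x)) * g (S^[n'] x) with hw
    have hwD : AM μ D w := am_mul (am_conj (hgD n)) (hgD n')
    have hPm : AEStronglyMeasurable P μ :=
      (hGn n).mul (Complex.continuous_conj.comp_aestronglyMeasurable (hGn n'))
    have hPB : ∀ᵐ x ∂μ, ‖P x‖ ≤ B * B := by
      filter_upwards [hGnB n, hGnB n'] with x e1 e2
      rw [hP]
      simp only [norm_mul, RCLike.norm_conj]
      exact mul_le_mul e1 e2 (norm_nonneg _) hB0
    have hwm : AEStronglyMeasurable w μ :=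
      (Complex.continuous_conj.comp_aestronglyMeasurable (hgn n)).mul (hgn n')
    have hwB : ∀ᵐ x ∂μ, ‖w x‖ ≤ B * B := by
      filter_upwards [hgnB n, hgnB n'] with x e1 e2
      rw [hw]
      simp only [norm_mul, RCLike.norm_conj]
      exact mul_le_mul e1 e2 (norm_nonneg _) hB0
    have hPi : Integrable P μ := int_of_bd hPm hPB
    have h1 : ∫ x, X n x * conj (X n' x) ∂μ = ∫ x, w x * P x ∂μ := by
      refine integral_congr_ae (Eventually.of_forall fun x => ?_)
      simp only [hX, hw, hP, map_mul, Complex.conj_conj]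
      ring
    have hwP : Integrable (fun x => w x * P x) μ := by
      refine int_of_bd (C := (B * B) * (B * B)) (hwm.mul hPm) ?_
      filter_upwards [hwB, hPB] with x e1 e2
      rw [norm_mul]
      exact mul_le_mul e1 e2 (norm_nonneg _) (by positivity)
    have h2 : ∫ x, w x * P x ∂μ = ∫ x, w x * (μ[P|D]) x ∂μ := by
      rw [← integral_condExp hDm (f := fun x => w x * P x)]
      exact integral_congr_ae (pull13 hwD hwP hPi)
    set m : ℂ := ∫ y, P y ∂μ with hm
    set Q : Ω → ℂ := fun x => (μ[P|D]) x - m with hQ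
    have hEm : AEStronglyMeasurable (μ[P|D]) μ := integrable_condExp.aestronglyMeasurable
    have hEB : ∀ᵐ x ∂μ, ‖(μ[P|D]) x‖ ≤ B * B := bd_condExp hDm hPm hPB
    have hmB : ‖m‖ ≤ B * B := by
      rw [hm]
      have := norm_integral_le_of_norm_le_const hPB
      simpa using this
    have hQm : AEStronglyMeasurable Q μ := hEm.sub aestronglyMeasurable_const
    have hQB : ∀ᵐ x ∂μ, ‖Q x‖ ≤ B * B + B * B := by
      filter_upwards [hEB] with x hx
      exact (norm_sub_le _ _).trans (add_le_add hx hmB)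
    have hwi : Integrable w μ := int_of_bd hwm hwB
    have hwQ : Integrable (fun x => w x * Q x) μ := by
      refine int_of_bd (C := (B * B) * (B * B + B * B)) (hwm.mul hQm) ?_
      filter_upwards [hwB, hQB] with x e1 e2
      rw [norm_mul]
      exact mul_le_mul e1 e2 (norm_nonneg _) (by positivity)
    have h3 : ∫ x, w x * (μ[P|D]) x ∂μ = m * ∫ x, w x ∂μ + ∫ x, w x * Q x ∂μ := by
      rw [← integral_const_mul, ← integral_add (hwi.const_mul m) hwQ]
      refine integral_congr_ae (Eventually.of_forall fun x => ?_)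
      simp only [hQ]
      ring
    have h4 : ‖∫ x, w x ∂μ‖ ≤ B ^ 2 := by
      have := norm_integral_le_of_norm_le_const hwB
      simpa [sq] using this
    have h5 : ‖∫ x, w x * Q x ∂μ‖ ≤ B ^ 2 * η := by
      have h6 : ‖∫ x, w x * Q x ∂μ‖ ≤ ∫ x, B ^ 2 * ‖Q x‖ ∂μ := by
        refine norm_integral_le_of_norm_le ((int_of_bd hQm hQB).norm.const_mul _) ?_
        filter_upwards [hwB] with x hx
        rw [norm_mul, sq]
        exact mul_le_mul_of_nonneg_right hx (norm_nonneg _)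
      have h7 : (∫ x, ‖Q x‖ ∂μ) ^ 2 ≤ η ^ 2 := by
        refine (sq_int_le (int_of_bd hQm hQB).norm ?_).trans (h n hn n' hn')
        refine int_of_bdr (C := (B * B + B * B) ^ 2) (hQm.norm.pow 2) ?_
        filter_upwards [hQB] with x hx
        rw [Real.norm_eq_abs, abs_of_nonneg (by positivity)]
        exact pow_le_pow_left₀ (norm_nonneg _) hx 2
      have h8 : ∫ x, ‖Q x‖ ∂μ ≤ η := by
        have := abs_le_of_sq_le_sq' h7 hη
        exact this.2
      rw [integral_const_mul] at h6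
      exact h6.trans (mul_le_mul_of_nonneg_left h8 (by positivity))
    rw [h1, h2, h3]
    refine (norm_add_le _ _).trans ?_
    rw [norm_mul]
    have h9 : ‖m‖ * ‖∫ x, w x ∂μ‖ ≤ ‖m‖ * B ^ 2 := mul_le_mul_of_nonneg_left h4 (norm_nonneg _)
    have : B ^ 2 * (‖m‖ + η) = ‖m‖ * B ^ 2 + B ^ 2 * η := by ring
    rw [this]
    exact add_le_add h9 h5
  refine hstep1.trans ?_
  have h10 : ∫ x, ‖Z x‖ ^ 2 ∂μ = ‖((∫ x, ‖Z x‖ ^ 2 ∂μ : ℝ) : ℂ)‖ := by
    rw [Complex.norm_real, Real.norm_eq_abs, abs_of_nonneg (integral_nonneg fun x => sq_nonneg _)]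
  rw [h10, hexp, norm_div, norm_pow, Complex.norm_natCast, div_le_iff₀ (by positivity)]
  refine (norm_sum_le _ _).trans ?_
  refine (sum_le_sum fun n _ => norm_sum_le _ _).trans ?_
  refine (sum_le_sum fun n hn => sum_le_sum fun n' hn' =>
    hterm n (mem_range.1 hn) n' (mem_range.1 hn')).trans ?_
  simp_rw [← mul_sum, sum_add_distrib, sum_const, card_range, nsmul_eq_mul]
  refine le_of_eq ?_
  field_simp

/-- the double mean of the correlations -/
theorem dmean (hS : Sys μ S S') (hG : AEStronglyMeasurable G μ)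
    {H : ℕ} (hH : 1 ≤ H) :
    (∑ h ∈ range H, ∑ h' ∈ range H,
      ‖∫ y, G (S^[h] y) * conj (G (S^[h'] y)) ∂μ‖) / (H : ℝ) ^ 2 ≤
    2 * ((∑ j ∈ range H, ‖∫ y, G (S^[j] y) * conj (G y) ∂μ‖) / (H : ℝ)) := by
  set c : ℕ → ℝ := fun j => ‖∫ y, G (S^[j] y) * conj (G y) ∂μ‖ with hc
  have hHr : (0 : ℝ) < H := by exact_mod_cast hH
  -- the correlation depends only on the difference
  have hle : ∀ h h' : ℕ, h' ≤ h → ‖∫ y, G (S^[h] y) * conj (G (S^[h'] y)) ∂μ‖ = c (h - h') := by
    intro h h' hh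
    rw [hc]
    simp only
    congr 1
    set Y : Ω → ℂ := fun y => G (S^[h - h'] y) * conj (G y) with hY
    have hYm : AEStronglyMeasurable Y μ :=
      (asm_iter hS _ hG).mul (Complex.continuous_conj.comp_aestronglyMeasurable hG)
    have h1 := (hS.iterate h').mp.map_eq
    have h2 : AEStronglyMeasurable Y (μ.map S^[h']) := by rw [h1]; exact hYm
    have h3 := integral_map (hS.iterate h').mp.aemeasurable h2
    rw [h1] at h3
    rw [h3]
    refine integral_congr_ae (Eventually.of_forall fun x => ?_)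
    simp only [hY]
    rw [← Function.iterate_add_apply, Nat.sub_add_cancel hh]
  have hsym : ∀ h h' : ℕ, ‖∫ y, G (S^[h] y) * conj (G (S^[h'] y)) ∂μ‖ =
      ‖∫ y, G (S^[h'] y) * conj (G (S^[h] y)) ∂μ‖ := by
    intro h h'
    rw [← RCLike.norm_conj (∫ y, G (S^[h] y) * conj (G (S^[h'] y)) ∂μ), ← integral_conj]
    congr 1
    refine integral_congr_ae (Eventually.of_forall fun x => ?_)
    simp only [map_mul, Complex.conj_conj]
    ring
  have hc0 : ∀ j, 0 ≤ c j := fun j => norm_nonneg _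
  have hrow : ∀ h < H, ∑ h' ∈ range H, ‖∫ y, G (S^[h] y) * conj (G (S^[h'] y)) ∂μ‖ ≤
      2 * ∑ j ∈ range H, c j := by
    intro h hh
    have e1 : ∑ h' ∈ range H, ‖∫ y, G (S^[h] y) * conj (G (S^[h'] y)) ∂μ‖ ≤
        ∑ h' ∈ range H, (if h' ≤ h then c (h - h') else 0) +
        ∑ h' ∈ range H, (if h ≤ h' then c (h' - h) else 0) := by
      rw [← sum_add_distrib]
      refine sum_le_sum fun h' _ => ?_
      rcases le_total h' h with h1 | h1
      · rw [hle h h' h1, if_pos h1]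
        have : 0 ≤ (if h ≤ h' then c (h' - h) else 0) := by split_ifs <;> simp [hc0]
        linarith
      · rw [hsym, hle h' h h1, if_pos h1]
        have : 0 ≤ (if h' ≤ h then c (h - h') else 0) := by split_ifs <;> simp [hc0]
        linarith
    have e2 : ∑ h' ∈ range H, (if h' ≤ h then c (h - h') else 0) ≤ ∑ j ∈ range H, c j := by
      rw [← sum_filter]
      have hinj : Set.InjOn (fun h' => h - h') ↑((range H).filter fun h' => h' ≤ h) := by
        intro a ha b hb hab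
        simp only [coe_filter, Set.mem_ofPred_eq] at ha hb hab
        omega
      rw [← sum_image (f := c) hinj]
      refine sum_le_sum_of_subset_of_nonneg ?_ fun j _ _ => hc0 j
      intro j hj
      obtain ⟨a, ha, rfl⟩ := mem_image.1 hj
      exact mem_range.2 (lt_of_le_of_lt (Nat.sub_le _ _) hh)
    have e3 : ∑ h' ∈ range H, (if h ≤ h' then c (h' - h) else 0) ≤ ∑ j ∈ range H, c j := by
      rw [← sum_filter]
      have hinj : Set.InjOn (fun h' => h' - h) ↑((range H).filter fun h' => h ≤ h') := by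
        intro a ha b hb hab
        simp only [coe_filter, Set.mem_ofPred_eq] at ha hb hab
        omega
      rw [← sum_image (f := c) hinj]
      refine sum_le_sum_of_subset_of_nonneg ?_ fun j _ _ => hc0 j
      intro j hj
      obtain ⟨a, ha, rfl⟩ := mem_image.1 hj
      have := mem_range.1 (mem_filter.1 ha).1
      exact mem_range.2 (lt_of_le_of_lt (Nat.sub_le _ _) this)
    linarith
  rw [div_le_iff₀ (by positivity)]
  refine (sum_le_sum fun h hh => hrow h (mem_range.1 hh)).trans (le_of_eq ?_)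
  rw [sum_const, card_range, nsmul_eq_mul]
  field_simp

end

end Pool.Agent.Helper95.TA
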